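import Pool.Agent.Helper45.CF.GoalsA

/-! # Packet CF-DEN: `C(Z, ·)` preserves closures of increasing unions -/

set_option autoImplicit false

open scoped ComplexOrder ZeroAtInfty Topology ComplexConjugate
open TopologicalSpace Filter

namespace Pool.Agent.Helper86.CF.DEN

open Pool.Agent.Helper34.CAR Pool.Agent.Helper39.CR Pool.Agent.Helper39.Uct
open Pool.Agent.Helper45.CF

private theorem conv_aux {A B : Type} [NonUnitalCStarAlgebra A] [NonUnitalCStarAlgebra B]
    (f : A →⋆ₙₐ[ℂ] B) (b : B) (r : ℝ) : Convex ℝ {x : A | f x ∈ Metric.ball b r} := by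
  let L : A →ₗ[ℂ] B := { toFun := f, map_add' := map_add f, map_smul' := map_smul f }
  have h : {x : A | f x ∈ Metric.ball b r} = (L.restrictScalars ℝ) ⁻¹' (Metric.ball b r) := rfl
  rw [h]
  exact (convex_ball b r).linear_preimage _

theorem t : S_DEN := by
  intro Z A _ _ _ _ B _ j u hu hd
  have mono : ∀ m n, m ≤ n → Set.range (u m) ⊆ Set.range (u n) := by
    intro m n hmn
    induction n, hmn using Nat.le_induction with
    | base => exact subset_rfl
    | succ n _ ih =>
      refine ih.trans ?_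
      rintro _ ⟨b, rfl⟩
      exact ⟨j n b, hu n b⟩
  intro g
  rw [Metric.mem_closure_iff]
  intro ε hε
  have h1 : ∀ z : Z, ∃ (k : ℕ) (b : B k), u k b ∈ Metric.ball (g z) (ε / 2) := by
    intro z
    obtain ⟨a, ha, ha'⟩ := Metric.dense_iff.1 hd (g z) (ε / 2) (by positivity)
    obtain ⟨k, hk⟩ := Set.mem_iUnion.1 ha'
    obtain ⟨b, rfl⟩ := hk
    exact ⟨k, b, ha⟩
  choose k b hkb using h1
  have hU : ∀ z : Z, {y : Z | u (k z) (b z) ∈ Metric.ball (g y) (ε / 2)} ∈ 𝓝 z := by
    intro z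
    have ho : IsOpen {y : Z | u (k z) (b z) ∈ Metric.ball (g y) (ε / 2)} := by
      simp only [Metric.mem_ball]
      exact isOpen_lt (continuous_const.dist g.continuous) continuous_const
    exact ho.mem_nhds (hkb z)
  obtain ⟨s, hs⟩ := CompactSpace.elim_nhds_subcover _ hU
  set K := s.sup k with hK
  have h2 : ∀ z ∈ s, ∃ c : B K, u K c = u (k z) (b z) := fun z hz =>
    mono (k z) K (Finset.le_sup hz) ⟨b z, rfl⟩
  have h3 : ∀ z : Z, ∃ c : B K, ∀ᶠ y in 𝓝 z, c ∈ {x : B K | u K x ∈ Metric.ball (g y) (ε / 2)} := by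
    intro z
    have hz : z ∈ ⋃ x ∈ s, {y : Z | u (k x) (b x) ∈ Metric.ball (g y) (ε / 2)} := by
      rw [hs]; trivial
    obtain ⟨x, hx⟩ := Set.mem_iUnion.1 hz
    obtain ⟨hxs, hx⟩ := Set.mem_iUnion.1 hx
    obtain ⟨c, hc⟩ := h2 x hxs
    refine ⟨c, ?_⟩
    have ho : IsOpen {y : Z | u (k x) (b x) ∈ Metric.ball (g y) (ε / 2)} := by
      simp only [Metric.mem_ball]
      exact isOpen_lt (continuous_const.dist g.continuous) continuous_const
    filter_upwards [ho.mem_nhds hx] with y hy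
    show u K c ∈ Metric.ball (g y) (ε / 2)
    rw [hc]
    exact hy
  obtain ⟨G, hG⟩ := exists_continuous_forall_mem_convex_of_local_const
    (t := fun y : Z => {x : B K | u K x ∈ Metric.ball (g y) (ε / 2)})
    (fun y => conv_aux (u K) (g y) (ε / 2)) h3
  refine ⟨mapC Z (u K) G, Set.mem_iUnion.2 ⟨K, G, rfl⟩, ?_⟩
  have h4 : dist g (mapC Z (u K) G) ≤ ε / 2 := by
    rw [ContinuousMap.dist_le (by positivity)]
    intro z
    rw [mapC_apply, dist_comm]
    exact (Metric.mem_ball.1 (hG z)).le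
  linarith

end Pool.Agent.Helper86.CF.DEN
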