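import Pool.Agent.Helper55.CF.Goals

/-!
Packet MORSE of MP_b612a6_ag: the Morse lemma with parameters.
-/

open Complex Filter Topology
open scoped ContDiff

noncomputable section
namespace Pool.Agent.Helper86.CF

open CF55

theorem inv_fun (Φ : E → E) (hΦ : ContDiffAt ℝ ∞ Φ 0) (h0 : Φ 0 = 0)
    (hinj : ∀ v, fderiv ℝ Φ 0 v = 0 → v = 0) :
    ∃ (Θ : E → E) (L : E ≃L[ℝ] E), Θ 0 = 0 ∧ ContDiffAt ℝ ∞ Θ 0 ∧
      HasFDerivAt Θ (L : E →L[ℝ] E) 0 ∧ ∀ᶠ y in 𝓝 (0 : E), Φ (Θ y) = y := by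
  have hinj' : Function.Injective ((fderiv ℝ Φ 0 : E →L[ℝ] E) : E →ₗ[ℝ] E) := by
    rw [← LinearMap.ker_eq_bot, LinearMap.ker_eq_bot']
    exact hinj
  let e : E ≃L[ℝ] E := (LinearEquiv.ofInjectiveEndo _ hinj').toContinuousLinearEquiv
  have he : ((e : E →L[ℝ] E)) = fderiv ℝ Φ 0 := ContinuousLinearMap.ext fun v => rfl
  have hn : (∞ : WithTop ℕ∞) ≠ 0 := by simp
  have hd : HasFDerivAt Φ (e : E →L[ℝ] E) 0 := by
    rw [he]
    exact (hΦ.differentiableAt hn).hasFDerivAt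
  have hs : HasStrictFDerivAt Φ (e : E →L[ℝ] E) 0 := hΦ.hasStrictFDerivAt' hd hn
  refine ⟨hΦ.localInverse hd hn, e.symm, ?_, ?_, ?_, ?_⟩
  · have := hΦ.localInverse_apply_image hd hn
    rwa [h0] at this
  · have := hΦ.to_localInverse hd hn
    rwa [h0] at this
  · have := hs.to_localInverse.hasFDerivAt
    rwa [h0] at this
  · have := hs.eventually_right_inverse
    rwa [h0] at this

theorem cutoff (h0 : Z → ℂ) (u : Set Z) (hu : u ∈ 𝓝 (0 : Z)) (hc : ContinuousOn h0 u) :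
    ∃ h : Z → ℂ, Continuous h ∧ ∀ᶠ z in 𝓝 (0 : Z), h z = h0 z := by
  obtain ⟨ρ, hρ, hball⟩ := Metric.mem_nhds_iff.1 hu
  let g : ContDiffBump (0 : Z) := ⟨ρ / 4, ρ / 2, by positivity, by linarith⟩
  refine ⟨fun z => ((g z : ℝ) : ℂ) * h0 z, ?_, ?_⟩
  · rw [continuous_iff_continuousAt]
    intro z
    by_cases hz : ‖z‖ < ρ
    · have h1 : ContinuousAt h0 z := by
        refine (hc.mono hball).continuousAt (Metric.isOpen_ball.mem_nhds ?_)
        simpa using hz
      have h2 : ContinuousAt (fun z => ((g z : ℝ) : ℂ)) z :=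
        (Complex.continuous_ofReal.comp g.continuous).continuousAt
      exact h2.mul h1
    · have hev : (fun z => ((g z : ℝ) : ℂ) * h0 z) =ᶠ[𝓝 z] fun _ => 0 := by
        have hopen : IsOpen {y : Z | ρ / 2 < ‖y‖} := isOpen_lt continuous_const continuous_norm
        have hmem : z ∈ {y : Z | ρ / 2 < ‖y‖} := by
          have : ρ ≤ ‖z‖ := not_lt.1 hz
          show ρ / 2 < ‖z‖
          linarith
        filter_upwards [hopen.mem_nhds hmem] with y hy
        have : g y = 0 := by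
          apply g.zero_of_le_dist
          rw [dist_zero_right]
          exact le_of_lt hy
        rw [this]
        simp
      exact (continuousAt_const (y := (0 : ℂ))).congr hev.symm
  · filter_upwards [Metric.closedBall_mem_nhds (0 : Z) (show 0 < ρ / 4 by positivity)] with z hz
    have : g z = 1 := g.one_of_mem_closedBall hz
    rw [this]
    simp

theorem sqrt_fun (u : E → ℂ) (hu : ContDiffAt ℝ ∞ u 0) (h1 : u 0 = 1) :
    ∃ r : E → ℂ, ContDiffAt ℝ ∞ r 0 ∧ r 0 = 1 ∧ ∀ᶠ x in 𝓝 (0 : E), r x ^ 2 = u x := by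
  refine ⟨fun x => Complex.exp (Complex.log (u x) / 2), ?_, ?_, ?_⟩
  · have hlog : ContDiffAt ℝ ∞ (fun x => Complex.log (u x)) 0 := by
      have h2 : ContDiffAt ℂ ∞ Complex.log (u 0) := by
        apply Complex.contDiffAt_log
        rw [h1]
        exact Complex.one_mem_slitPlane
      exact (h2.restrict_scalars ℝ).comp 0 hu
    have h3 : ContDiffAt ℝ ∞ (fun x => Complex.log (u x) / 2) 0 := by
      simp only [div_eq_mul_inv]
      exact hlog.mul contDiffAt_const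
    exact h3.cexp
  · simp [h1]
  · have hne : ∀ᶠ x in 𝓝 (0 : E), u x ≠ 0 := by
      apply hu.continuousAt.eventually_ne
      rw [h1]
      exact one_ne_zero
    filter_upwards [hne] with x hx
    rw [← Complex.exp_nat_mul]
    have : ((2 : ℕ) : ℂ) * (Complex.log (u x) / 2) = Complex.log (u x) := by
      push_cast
      ring
    rw [this, Complex.exp_log hx]

theorem normal_form (s1 s2 a b c : E → ℂ) (hs1 : ContDiffAt ℝ ∞ s1 0)
    (hs2 : ContDiffAt ℝ ∞ s2 0) (ha : ContDiffAt ℝ ∞ a 0) (hb : ContDiffAt ℝ ∞ b 0)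
    (hc : ContDiffAt ℝ ∞ c 0) (s10 : s1 0 = 0) (s20 : s2 0 = 0) (a0 : a 0 = 0) (c0 : c 0 = 0)
    (b0 : b 0 ≠ 0)
    (hinj : ∀ v : E, v.2.2 = 0 → fderiv ℝ s1 0 v = 0 → fderiv ℝ s2 0 v = 0 → v = 0) :
    ∃ (Θ : E → E) (L : E ≃L[ℝ] E), Θ 0 = 0 ∧ ContDiffAt ℝ ∞ Θ 0 ∧
      HasFDerivAt Θ (L : E →L[ℝ] E) 0 ∧ ∀ᶠ x in 𝓝 (0 : E), (Θ x).2.2 = x.2.2 ∧
        x.1 ^ 2 + x.2.1 ^ 2 = a (Θ x) * s1 (Θ x) ^ 2 + 2 * b (Θ x) * s1 (Θ x) * s2 (Θ x) +
          c (Θ x) * s2 (Θ x) ^ 2 := by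
  have hn : (∞ : WithTop ℕ∞) ≠ 0 := by simp
  have hu : ContDiffAt ℝ ∞ (fun x => 1 - a x * c x / b x ^ 2) 0 := by
    simp only [div_eq_mul_inv]
    exact contDiffAt_const.sub ((ha.mul hc).mul ((hb.pow 2).inv (pow_ne_zero 2 b0)))
  obtain ⟨r, hr, r0, hr2⟩ := sqrt_fun _ hu (by simp [a0])
  -- `β = b + D`
  set β : E → ℂ := fun x => b x + b x * r x with hβdef
  have hβ : ContDiffAt ℝ ∞ β 0 := hb.add (hb.mul hr)
  have β0 : β 0 ≠ 0 := by
    simp only [hβdef, r0, mul_one]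
    intro h
    apply b0
    have : (2 : ℂ) * b 0 = 0 := by linear_combination h
    simpa using this
  set γ : E → ℂ := fun x => c x * (β x)⁻¹ with hγdef
  have hγ : ContDiffAt ℝ ∞ γ 0 := hc.mul (hβ.inv β0)
  have γ0 : γ 0 = 0 := by simp [hγdef, c0]
  set y1 : E → ℂ := fun x => s1 x + γ x * s2 x with hy1def
  set y2 : E → ℂ := fun x => a x * s1 x + β x * s2 x with hy2def
  have hy1 : ContDiffAt ℝ ∞ y1 0 := hs1.add (hγ.mul hs2)
  have hy2 : ContDiffAt ℝ ∞ y2 0 := (ha.mul hs1).add (hβ.mul hs2)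
  set Φ : E → E := fun x => ((y1 x + y2 x) * (1 / 2), (y1 x - y2 x) * (1 / (2 * I)), x.2.2)
    with hΦdef
  have hΦ : ContDiffAt ℝ ∞ Φ 0 := by
    refine ContDiffAt.prodMk ((hy1.add hy2).mul contDiffAt_const)
      (ContDiffAt.prodMk ((hy1.sub hy2).mul contDiffAt_const) ?_)
    exact (contDiff_snd.comp contDiff_snd).contDiffAt
  have Φ0 : Φ 0 = 0 := by
    simp [hΦdef, hy1def, hy2def, s10, s20]
  -- derivatives
  have ds1 := (hs1.differentiableAt hn).hasFDerivAt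
  have ds2 := (hs2.differentiableAt hn).hasFDerivAt
  have da := (ha.differentiableAt hn).hasFDerivAt
  have dβ := (hβ.differentiableAt hn).hasFDerivAt
  have dγ := (hγ.differentiableAt hn).hasFDerivAt
  have dy1 : HasFDerivAt y1 (fderiv ℝ s1 0) 0 := by
    have h := ds1.add (dγ.mul ds2)
    have he : fderiv ℝ s1 0 + (γ 0 • fderiv ℝ s2 0 + s2 0 • fderiv ℝ γ 0) = fderiv ℝ s1 0 := by
      refine ContinuousLinearMap.ext fun v => ?_
      simp [γ0, s20]
    rw [he] at h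
    exact h
  have dy2 : HasFDerivAt y2 (β 0 • fderiv ℝ s2 0) 0 := by
    have h := (da.mul ds1).add (dβ.mul ds2)
    have he : (a 0 • fderiv ℝ s1 0 + s1 0 • fderiv ℝ a 0) +
        (β 0 • fderiv ℝ s2 0 + s2 0 • fderiv ℝ β 0) = β 0 • fderiv ℝ s2 0 := by
      refine ContinuousLinearMap.ext fun v => ?_
      simp [a0, s10, s20]
    rw [he] at h
    exact h
  have dΦ := (hΦ.differentiableAt hn).hasFDerivAt
  have hinjΦ : ∀ v, fderiv ℝ Φ 0 v = 0 → v = 0 := by
    intro v hv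
    have d1 : HasFDerivAt (fun x => (Φ x).1)
        ((ContinuousLinearMap.fst ℝ ℂ (ℂ × Z)).comp (fderiv ℝ Φ 0)) 0 :=
      (ContinuousLinearMap.fst ℝ ℂ (ℂ × Z)).hasFDerivAt.comp 0 dΦ
    have d2 : HasFDerivAt (fun x => (Φ x).2.1)
        ((ContinuousLinearMap.fst ℝ ℂ Z).comp
          ((ContinuousLinearMap.snd ℝ ℂ (ℂ × Z)).comp (fderiv ℝ Φ 0))) 0 :=
      (ContinuousLinearMap.fst ℝ ℂ Z).hasFDerivAt.comp 0
        ((ContinuousLinearMap.snd ℝ ℂ (ℂ × Z)).hasFDerivAt.comp 0 dΦ)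
    have d3 := HasFDerivAt.comp (0 : E) (((ContinuousLinearMap.snd ℝ ℂ Z).comp
        (ContinuousLinearMap.snd ℝ ℂ (ℂ × Z))).hasFDerivAt (x := Φ 0)) dΦ
    have e1 : HasFDerivAt (fun x => (Φ x).1)
        ((1 / 2 : ℂ) • (fderiv ℝ s1 0 + β 0 • fderiv ℝ s2 0)) 0 :=
      (dy1.add dy2).mul_const (1 / 2 : ℂ)
    have e2 : HasFDerivAt (fun x => (Φ x).2.1)
        ((1 / (2 * I) : ℂ) • (fderiv ℝ s1 0 - β 0 • fderiv ℝ s2 0)) 0 :=
      (dy1.sub dy2).mul_const (1 / (2 * I) : ℂ)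
    have e3 : HasFDerivAt (((ContinuousLinearMap.snd ℝ ℂ Z).comp
        (ContinuousLinearMap.snd ℝ ℂ (ℂ × Z))) ∘ Φ)
        ((ContinuousLinearMap.snd ℝ ℂ Z).comp (ContinuousLinearMap.snd ℝ ℂ (ℂ × Z))) 0 :=
      ((ContinuousLinearMap.snd ℝ ℂ Z).comp
        (ContinuousLinearMap.snd ℝ ℂ (ℂ × Z))).hasFDerivAt
    have f1 := congrArg (fun l : E →L[ℝ] ℂ => l v) (d1.unique e1)
    have f2 := congrArg (fun l : E →L[ℝ] ℂ => l v) (d2.unique e2)
    have f3 := congrArg (fun l : E →L[ℝ] Z => l v) (d3.unique e3)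
    simp only [ContinuousLinearMap.comp_apply, hv, map_zero,
      ContinuousLinearMap.coe_snd', _root_.smul_apply,
      _root_.add_apply, _root_.sub_apply, smul_eq_mul] at f1 f2 f3
    have g1 : fderiv ℝ s1 0 v + β 0 * fderiv ℝ s2 0 v = 0 := by
      have := f1.symm
      rcases mul_eq_zero.1 this with h | h
      · norm_num at h
      · exact h
    have g2 : fderiv ℝ s1 0 v - β 0 * fderiv ℝ s2 0 v = 0 := by
      have := f2.symm
      rcases mul_eq_zero.1 this with h | h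
      · simp at h
      · exact h
    have k1 : fderiv ℝ s1 0 v = 0 := by linear_combination (g1 + g2) / 2
    have k2 : fderiv ℝ s2 0 v = 0 := by
      have : β 0 * fderiv ℝ s2 0 v = 0 := by linear_combination (g1 - g2) / 2
      exact (mul_eq_zero.1 this).resolve_left β0
    exact hinj v f3.symm k1 k2
  obtain ⟨Θ, L, Θ0, hΘ, hL, hev⟩ := inv_fun Φ hΦ Φ0 hinjΦ
  refine ⟨Θ, L, Θ0, hΘ, hL, ?_⟩
  have htend : Tendsto Θ (𝓝 0) (𝓝 0) := by
    have := hΘ.continuousAt.tendsto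
    rwa [Θ0] at this
  have hβne : ∀ᶠ x in 𝓝 (0 : E), β (Θ x) ≠ 0 :=
    htend.eventually (hβ.continuousAt.eventually_ne β0)
  have hbne : ∀ᶠ x in 𝓝 (0 : E), b (Θ x) ≠ 0 :=
    htend.eventually (hb.continuousAt.eventually_ne b0)
  have hr2' := htend.eventually hr2
  filter_upwards [hev, hβne, hbne, hr2'] with x hx h1 h2 h3
  have x1 : (y1 (Θ x) + y2 (Θ x)) * (1 / 2) = x.1 := congrArg Prod.fst hx
  have x2 : (y1 (Θ x) - y2 (Θ x)) * (1 / (2 * I)) = x.2.1 :=
    congrArg (fun p : E => p.2.1) hx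
  have x3 : (Θ x).2.2 = x.2.2 := by
    have : (Φ (Θ x)).2.2 = x.2.2 := by rw [hx]
    exact this
  refine ⟨x3, ?_⟩
  have hI : (1 / (2 * I)) ^ 2 = (-1 / 4 : ℂ) := by
    rw [div_pow, mul_pow, I_sq]
    norm_num
  have h4 : x.1 ^ 2 + x.2.1 ^ 2 = y1 (Θ x) * y2 (Θ x) := by
    rw [← x1, ← x2, mul_pow (y1 (Θ x) - y2 (Θ x)), hI]
    ring
  rw [h4]
  generalize Θ x = q at *
  have h5 : b q ^ 2 * r q ^ 2 = b q ^ 2 - a q * c q := by
    rw [h3]
    field_simp
  simp only [hy1def, hy2def, hγdef]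
  have h6 : a q * (c q * (β q)⁻¹) = b q - b q * r q := by
    rw [← mul_assoc, ← div_eq_mul_inv, div_eq_iff h1]
    simp only [hβdef]
    linear_combination h5
  have h7 : c q * (β q)⁻¹ * β q = c q := by
    rw [mul_assoc, inv_mul_cancel₀ h1, mul_one]
  have h8 : β q = b q + b q * r q := rfl
  linear_combination s1 q * s2 q * h6 + s2 q ^ 2 * h7 + s1 q * s2 q * h8

/-- `T x u v` is smooth in `x`. -/
theorem contDiff_T1 (T : Tri) (u v : V) : ContDiff ℝ ∞ (fun x : V => T x u v) := by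
  let l : V →ₗ[ℂ] ℂ :=
    { toFun := fun x => T x u v
      map_add' := fun x y => by simp
      map_smul' := fun c x => by simp }
  exact (l.toContinuousLinearMap.restrictScalars ℝ).contDiff

theorem contDiff_chartVec (e : Fin 6 → V) : ContDiff ℝ ∞ (chartVec e) := by
  unfold chartVec
  fun_prop

theorem continuous_chart (T : Tri) (e : Fin 6 → V) : Continuous (chart T e) := by
  have h1 : ∀ u v : V, Continuous (fun x : V => T u v x) := fun u v =>
    (T u v).continuous_of_finiteDimensional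
  have h2 : ∀ u : V, Continuous (fun x : V => T u x x) := by
    intro u
    have : (fun x : V => T u x x) =
        fun x : V => ∑ j, x j * T u (fun i => if j = i then 1 else 0) x := by
      funext x
      have := LinearMap.pi_apply_eq_sum_univ (T u) x
      conv_lhs => rw [this]
      simp
    rw [this]
    exact continuous_finsetSum _ fun j _ => (continuous_apply j).mul (h1 _ _)
  have h3 : Continuous (fun x : V => T x x x) := by
    have : (fun x : V => T x x x) =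
        fun x : V => ∑ j, x j * T (fun i => if j = i then 1 else 0) x x := by
      funext x
      have := LinearMap.pi_apply_eq_sum_univ T x
      conv_lhs => rw [this]
      simp
    rw [this]
    exact continuous_finsetSum _ fun j _ => (continuous_apply j).mul (h2 _)
  exact h3.comp (contDiff_chartVec e).continuous

theorem T_expand (T : Tri) (hT : Sym T) (w u v : V) (s t : ℂ) (h1 : T w w u = 0)
    (h2 : T w w v = 0) :
    T (w + s • u + t • v) (w + s • u + t • v) (w + s • u + t • v) = T w w w +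
      ((3 * T w u u + (T u u u * s + 3 * T u u v * t)) * s ^ 2 + 2 * (3 * T w u v) * s * t +
        (3 * T w v v + (3 * T u v v * s + T v v v * t)) * t ^ 2) := by
  have a1 : T w u w = 0 := by rw [hT.s23]; exact h1
  have a2 : T u w w = 0 := by rw [hT.s12]; exact a1
  have a3 : T w v w = 0 := by rw [hT.s23]; exact h2
  have a4 : T v w w = 0 := by rw [hT.s12]; exact a3
  have b1 : T u w u = T w u u := hT.s12 _ _ _
  have b2 : T u u w = T w u u := by rw [hT.s23, hT.s12]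
  have b3 : T v w v = T w v v := hT.s12 _ _ _
  have b4 : T v v w = T w v v := by rw [hT.s23, hT.s12]
  have c1 : T w v u = T w u v := hT.s23 _ _ _
  have c2 : T u w v = T w u v := hT.s12 _ _ _
  have c3 : T u v w = T w u v := by rw [hT.s23, hT.s12]
  have c4 : T v w u = T w u v := by rw [hT.s12, hT.s23]
  have c5 : T v u w = T w u v := by rw [hT.s23, hT.s12, hT.s23]
  have d1 : T u v u = T u u v := hT.s23 _ _ _
  have d2 : T v u u = T u u v := by rw [hT.s12, hT.s23]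
  have d3 : T v u v = T u v v := hT.s12 _ _ _
  have d4 : T v v u = T u v v := by rw [hT.s23, hT.s12]
  simp only [map_add, map_smul, LinearMap.add_apply, LinearMap.smul_apply, smul_eq_mul]
  rw [h1, h2, a1, a2, a3, a4, b1, b2, b3, b4, c1, c2, c3, c4, c5, d1, d2, d3, d4]
  ring

theorem stmtMORSE (hX : G_XI) : G_MORSE := by
  intro T e hT h00 h011 h022 h012
  obtain ⟨ξ, hξ, ξ0, hξe⟩ := hX T e hT h00 h011 h022 h012
  have hn : (∞ : WithTop ℕ∞) ≠ 0 := by simp
  -- the vector `w_z`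
  let P : Z → E := fun z => ((ξ z).1, (ξ z).2, z)
  have hP : ContDiffAt ℝ ∞ P 0 := by
    refine ContDiffAt.prodMk ?_ (ContDiffAt.prodMk ?_ contDiffAt_id)
    · exact contDiff_fst.contDiffAt.comp 0 hξ
    · exact contDiff_snd.contDiffAt.comp 0 hξ
  have P0 : P 0 = 0 := by
    simp [P, ξ0]
  have hw00 : chartVec e 0 = e 0 := by
    simp [chartVec]
  have hw0 : chartVec e (P 0) = e 0 := by
    rw [P0, hw00]
  have hpr : ContDiffAt ℝ ∞ (fun p : E => p.2.2) 0 :=
    (contDiff_snd.comp contDiff_snd).contDiffAt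
  have hPp : ContDiffAt ℝ ∞ (fun p : E => P p.2.2) 0 :=
    ContDiffAt.comp (0 : E) (f := fun p : E => p.2.2) (g := P) hP hpr
  have hTw : ∀ u v : V, ContDiffAt ℝ ∞ (fun p : E => T (chartVec e (P p.2.2)) u v) 0 := by
    intro u v
    exact ((contDiff_T1 T u v).comp (contDiff_chartVec e)).contDiffAt.comp 0 hPp
  have hs1 : ContDiffAt ℝ ∞ (fun p : E => p.1 - (P p.2.2).1) 0 :=
    contDiff_fst.contDiffAt.sub (contDiff_fst.contDiffAt.comp 0 hPp)
  have hs2 : ContDiffAt ℝ ∞ (fun p : E => p.2.1 - (P p.2.2).2.1) 0 :=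
    (contDiff_fst.comp contDiff_snd).contDiffAt.sub
      ((contDiff_fst.comp contDiff_snd).contDiffAt.comp 0 hPp)
  have ha : ContDiffAt ℝ ∞ (fun p : E => 3 * T (chartVec e (P p.2.2)) (e 1) (e 1) +
      (T (e 1) (e 1) (e 1) * (p.1 - (P p.2.2).1) +
        3 * T (e 1) (e 1) (e 2) * (p.2.1 - (P p.2.2).2.1))) 0 :=
    (contDiffAt_const.mul (hTw _ _)).add ((contDiffAt_const.mul hs1).add
      (contDiffAt_const.mul hs2))
  have hc : ContDiffAt ℝ ∞ (fun p : E => 3 * T (chartVec e (P p.2.2)) (e 2) (e 2) +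
      (3 * T (e 1) (e 2) (e 2) * (p.1 - (P p.2.2).1) +
        T (e 2) (e 2) (e 2) * (p.2.1 - (P p.2.2).2.1))) 0 :=
    (contDiffAt_const.mul (hTw _ _)).add ((contDiffAt_const.mul hs1).add
      (contDiffAt_const.mul hs2))
  have hb : ContDiffAt ℝ ∞ (fun p : E => 3 * T (chartVec e (P p.2.2)) (e 1) (e 2)) 0 :=
    contDiffAt_const.mul (hTw _ _)
  have P0' : P (0 : E).2.2 = 0 := P0
  have hw0' : chartVec e (P (0 : E).2.2) = e 0 := hw0
  obtain ⟨Θ, L, Θ0, hΘ, hL, hev⟩ := normal_form _ _ _ _ _ hs1 hs2 ha hb hc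
    (by simp [P0]) (by simp [P0]) (by simp only [P0', hw00, h011]; simp)
    (by simp only [P0', hw00, h022]; simp) (by
      simp only [hw0']
      exact mul_ne_zero three_ne_zero h012) (by
      intro v hv h1 h2
      have dP := (hP.differentiableAt hn).hasFDerivAt
      have dPp : HasFDerivAt (fun p : E => P p.2.2) ((fderiv ℝ P 0).comp
          ((ContinuousLinearMap.snd ℝ ℂ Z).comp (ContinuousLinearMap.snd ℝ ℂ (ℂ × Z)))) 0 :=
        HasFDerivAt.comp (0 : E) (f := fun p : E => p.2.2) (g := P) dP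
          ((ContinuousLinearMap.snd ℝ ℂ Z).comp
            (ContinuousLinearMap.snd ℝ ℂ (ℂ × Z))).hasFDerivAt
      have k1 : HasFDerivAt (fun p : E => p.1 - (P p.2.2).1)
          (ContinuousLinearMap.fst ℝ ℂ (ℂ × Z) - (ContinuousLinearMap.fst ℝ ℂ (ℂ × Z)).comp
            ((fderiv ℝ P 0).comp
          ((ContinuousLinearMap.snd ℝ ℂ Z).comp (ContinuousLinearMap.snd ℝ ℂ (ℂ × Z))))) 0 :=
        (ContinuousLinearMap.fst ℝ ℂ (ℂ × Z)).hasFDerivAt.sub
          ((ContinuousLinearMap.fst ℝ ℂ (ℂ × Z)).hasFDerivAt.comp 0 dPp)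
      have k2 : HasFDerivAt (fun p : E => p.2.1 - (P p.2.2).2.1)
          (((ContinuousLinearMap.fst ℝ ℂ Z).comp (ContinuousLinearMap.snd ℝ ℂ (ℂ × Z))) -
            ((ContinuousLinearMap.fst ℝ ℂ Z).comp (ContinuousLinearMap.snd ℝ ℂ (ℂ × Z))).comp
            ((fderiv ℝ P 0).comp
          ((ContinuousLinearMap.snd ℝ ℂ Z).comp (ContinuousLinearMap.snd ℝ ℂ (ℂ × Z))))) 0 :=
        ((ContinuousLinearMap.fst ℝ ℂ Z).comp
          (ContinuousLinearMap.snd ℝ ℂ (ℂ × Z))).hasFDerivAt.sub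
          (((ContinuousLinearMap.fst ℝ ℂ Z).comp
            (ContinuousLinearMap.snd ℝ ℂ (ℂ × Z))).hasFDerivAt.comp 0 dPp)
      rw [k1.fderiv] at h1
      rw [k2.fderiv] at h2
      simp only [_root_.sub_apply, ContinuousLinearMap.comp_apply,
        ContinuousLinearMap.coe_snd', ContinuousLinearMap.coe_fst', hv, map_zero] at h1 h2
      have h1' : v.1 = 0 := by simpa using h1
      have h2' : v.2.1 = 0 := by simpa using h2
      exact Prod.ext h1' (Prod.ext h2' hv))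
  -- continuity
  obtain ⟨U, hU, hPU⟩ := contDiffAt_zero.1 (hP.of_le zero_le)
  obtain ⟨h, hcont, hheq⟩ := cutoff (fun z => chart T e (P z)) U hU
    ((continuous_chart T e).comp_continuousOn hPU)
  refine ⟨h, Θ, L, ξ, hcont, Θ0, hΘ, hL, ?_, hξ.continuousAt, ξ0, ?_⟩
  · have htend : Tendsto (fun x : E => (Θ x).2.2) (𝓝 0) (𝓝 0) := by
      have h1 := hΘ.continuousAt.tendsto
      rw [Θ0] at h1
      have h2 : Tendsto (fun p : E => p.2.2) (𝓝 0) (𝓝 0) := by
        have : Continuous (fun p : E => p.2.2) := continuous_snd.comp continuous_snd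
        exact this.tendsto 0
      exact h2.comp h1
    filter_upwards [hev, htend.eventually hheq, htend.eventually hξe] with x hx h1 h2
    obtain ⟨h3, h4⟩ := hx
    rw [h4, ← h3, h1]
    have hexp := T_expand T hT (chartVec e (P (Θ x).2.2)) (e 1) (e 2)
      ((Θ x).1 - (P (Θ x).2.2).1) ((Θ x).2.1 - (P (Θ x).2.2).2.1) h2.1 h2.2
    have hvec : chartVec e (Θ x) = chartVec e (P (Θ x).2.2) +
        ((Θ x).1 - (P (Θ x).2.2).1) • e 1 + ((Θ x).2.1 - (P (Θ x).2.2).2.1) • e 2 := by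
      simp only [chartVec, P]
      module
    unfold chart
    rw [hvec, hexp]
    ring
  · filter_upwards [hheq, hξe] with z h1 h2
    exact ⟨h1, h2⟩

end Pool.Agent.Helper86.CF
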