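import Pool.Agent.Helper55.CF.Goals2
import Pool.Agent.Helper86.CF.Morse

/-!
Packet MORSE of MP_b612a6_ag, corrected version: the Morse lemma with parameters, with smoothness
on a neighbourhood of the origin.
-/

open Complex Filter Topology
open scoped ContDiff

noncomputable section
namespace Pool.Agent.Helper86.CF

open CF55

/-- smooth near the origin -/
def Sm {X Y : Type} [NormedAddCommGroup X] [NormedSpace ℝ X] [NormedAddCommGroup Y]
    [NormedSpace ℝ Y] (f : X → Y) : Prop := ∀ᶠ x in 𝓝 (0 : X), ContDiffAt ℝ ∞ f x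

section Sm

variable {X Y W : Type} [NormedAddCommGroup X] [NormedSpace ℝ X] [NormedAddCommGroup Y]
    [NormedSpace ℝ Y] [NormedAddCommGroup W] [NormedSpace ℝ W]

theorem Sm.at {f : X → Y} (h : Sm f) : ContDiffAt ℝ ∞ f 0 := h.self_of_nhds

theorem Sm.of {f : X → Y} (h : ContDiff ℝ ∞ f) : Sm f := Eventually.of_forall fun _ => h.contDiffAt

theorem Sm.const (c : Y) : Sm (fun _ : X => c) := Sm.of contDiff_const

theorem Sm.add {f g : X → Y} (hf : Sm f) (hg : Sm g) : Sm (fun x => f x + g x) := by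
  filter_upwards [hf, hg] with x h1 h2
  exact h1.add h2

theorem Sm.sub {f g : X → Y} (hf : Sm f) (hg : Sm g) : Sm (fun x => f x - g x) := by
  filter_upwards [hf, hg] with x h1 h2
  exact h1.sub h2

theorem Sm.mul {f g : X → ℂ} (hf : Sm f) (hg : Sm g) : Sm (fun x => f x * g x) := by
  filter_upwards [hf, hg] with x h1 h2
  exact h1.mul h2

theorem Sm.pow {f : X → ℂ} (hf : Sm f) (n : ℕ) : Sm (fun x => f x ^ n) := by
  filter_upwards [hf] with x h1
  exact h1.pow n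

theorem Sm.inv {f : X → ℂ} (hf : Sm f) (h0 : f 0 ≠ 0) : Sm (fun x => (f x)⁻¹) := by
  filter_upwards [hf, hf.at.continuousAt.eventually_ne h0] with x h1 h2
  exact h1.inv h2

theorem Sm.prodMk {f : X → Y} {g : X → W} (hf : Sm f) (hg : Sm g) :
    Sm (fun x => (f x, g x)) := by
  filter_upwards [hf, hg] with x h1 h2
  exact h1.prodMk h2

theorem Sm.comp' {f : X → Y} {g : Y → W} (hg : ContDiff ℝ ∞ g) (hf : Sm f) :
    Sm (fun x => g (f x)) := by
  filter_upwards [hf] with x h1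
  exact hg.contDiffAt.comp x h1

theorem Sm.comp {f : X → Y} {g : Y → W} (hg : Sm g) (hf : Sm f) (h0 : f 0 = 0) :
    Sm (fun x => g (f x)) := by
  have htend : Tendsto f (𝓝 0) (𝓝 0) := by
    have := hf.at.continuousAt.tendsto
    rwa [h0] at this
  filter_upwards [hf, htend.eventually hg] with x h1 h2
  exact h2.comp x h1

end Sm

theorem inv_fun2 (Φ : E → E) (hΦ' : Sm Φ) (h0 : Φ 0 = 0)
    (hinj : ∀ v, fderiv ℝ Φ 0 v = 0 → v = 0) :
    ∃ (Θ : E → E) (L : E ≃L[ℝ] E), Θ 0 = 0 ∧ Sm Θ ∧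
      HasFDerivAt Θ (L : E →L[ℝ] E) 0 ∧ ∀ᶠ y in 𝓝 (0 : E), Φ (Θ y) = y := by
  have hΦ := hΦ'.at
  have hinj' : Function.Injective ((fderiv ℝ Φ 0 : E →L[ℝ] E) : E →ₗ[ℝ] E) := by
    rw [← LinearMap.ker_eq_bot, LinearMap.ker_eq_bot']
    exact hinj
  let e : E ≃L[ℝ] E := (LinearEquiv.ofInjectiveEndo _ hinj').toContinuousLinearEquiv
  have he : ((e : E →L[ℝ] E)) = fderiv ℝ Φ 0 := ContinuousLinearMap.ext fun v => rfl
  have hn : (∞ : WithTop ℕ∞) ≠ 0 := by simp
  have hd : HasFDerivAt Φ (e : E →L[ℝ] E) 0 := by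
    rw [he]
    exact (hΦ.differentiableAt hn).hasFDerivAt
  have hs : HasStrictFDerivAt Φ (e : E →L[ℝ] E) 0 := hΦ.hasStrictFDerivAt' hd hn
  have hΘ0 : hΦ.localInverse hd hn 0 = 0 := by
    have := hΦ.localInverse_apply_image hd hn
    rwa [h0] at this
  have hΘc : Tendsto (hΦ.localInverse hd hn) (𝓝 0) (𝓝 0) := by
    have h1 := (hΦ.to_localInverse hd hn).continuousAt.tendsto
    rwa [h0, hΘ0] at h1
  refine ⟨hΦ.localInverse hd hn, e.symm, hΘ0, ?_, ?_, ?_⟩
  · set g := hΦ.toOpenPartialHomeomorph Φ hd hn with hg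
    have htarget : ∀ᶠ y in 𝓝 (0 : E), y ∈ g.target := by
      have h1 := hΦ.image_mem_toOpenPartialHomeomorph_target hd hn
      rw [h0] at h1
      exact g.open_target.mem_nhds h1
    have hfd : ContinuousAt (fderiv ℝ Φ) 0 := hΦ.continuousAt_fderiv hn
    have hinv : ∀ᶠ x in 𝓝 (0 : E), fderiv ℝ Φ x ∈
        Set.range ((↑) : (E ≃L[ℝ] E) → (E →L[ℝ] E)) := by
      have h1 := ContinuousLinearEquiv.nhds e
      rw [he] at h1
      exact hfd.eventually h1
    filter_upwards [htarget, hΘc.eventually hinv, hΘc.eventually hΦ'] with y h1 h2 h3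
    obtain ⟨e', he'⟩ := h2
    have h4 : HasFDerivAt Φ (e' : E →L[ℝ] E) (hΦ.localInverse hd hn y) := by
      rw [he']
      exact (h3.differentiableAt hn).hasFDerivAt
    exact g.contDiffAt_symm h1 h4 h3
  · have := hs.to_localInverse.hasFDerivAt
    rwa [h0] at this
  · have := hs.eventually_right_inverse
    rwa [h0] at this

theorem sqrt_fun2 (u : E → ℂ) (hu : Sm u) (h1 : u 0 = 1) :
    ∃ r : E → ℂ, Sm r ∧ r 0 = 1 ∧ ∀ᶠ x in 𝓝 (0 : E), r x ^ 2 = u x := by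
  have hslit : ∀ᶠ x in 𝓝 (0 : E), u x ∈ slitPlane := by
    refine hu.at.continuousAt.eventually (isOpen_slitPlane.mem_nhds ?_)
    rw [h1]
    exact one_mem_slitPlane
  refine ⟨fun x => Complex.exp (Complex.log (u x) / 2), ?_, ?_, ?_⟩
  · filter_upwards [hu, hslit] with x hx hs
    have hlog : ContDiffAt ℝ ∞ (fun x => Complex.log (u x)) x := by
      have h2 : ContDiffAt ℂ ∞ Complex.log (u x) := Complex.contDiffAt_log hs
      exact (h2.restrict_scalars ℝ).comp x hx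
    have h3 : ContDiffAt ℝ ∞ (fun x => Complex.log (u x) / 2) x := by
      simp only [div_eq_mul_inv]
      exact hlog.mul contDiffAt_const
    exact h3.cexp
  · simp [h1]
  · filter_upwards [hslit] with x hx
    rw [← Complex.exp_nat_mul]
    have : ((2 : ℕ) : ℂ) * (Complex.log (u x) / 2) = Complex.log (u x) := by
      push_cast
      ring
    rw [this, Complex.exp_log (slitPlane_ne_zero hx)]

theorem normal_form2 (s1 s2 a b c : E → ℂ) (hs1' : Sm s1)
    (hs2' : Sm s2) (ha' : Sm a) (hb' : Sm b) (hc' : Sm c) (s10 : s1 0 = 0) (s20 : s2 0 = 0) (a0 : a 0 = 0) (c0 : c 0 = 0)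
    (b0 : b 0 ≠ 0)
    (hinj : ∀ v : E, v.2.2 = 0 → fderiv ℝ s1 0 v = 0 → fderiv ℝ s2 0 v = 0 → v = 0) :
    ∃ (Θ : E → E) (L : E ≃L[ℝ] E), Θ 0 = 0 ∧ Sm Θ ∧
      HasFDerivAt Θ (L : E →L[ℝ] E) 0 ∧ ∀ᶠ x in 𝓝 (0 : E), (Θ x).2.2 = x.2.2 ∧
        x.1 ^ 2 + x.2.1 ^ 2 = a (Θ x) * s1 (Θ x) ^ 2 + 2 * b (Θ x) * s1 (Θ x) * s2 (Θ x) +
          c (Θ x) * s2 (Θ x) ^ 2 := by
  have hn : (∞ : WithTop ℕ∞) ≠ 0 := by simp
  have hs1 := hs1'.at
  have hs2 := hs2'.at
  have ha := ha'.at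
  have hb := hb'.at
  have hc := hc'.at
  have hu : Sm (fun x => 1 - a x * c x / b x ^ 2) := by
    simp only [div_eq_mul_inv]
    exact (Sm.const 1).sub ((ha'.mul hc').mul ((hb'.pow 2).inv (pow_ne_zero 2 b0)))
  obtain ⟨r, hr', r0, hr2⟩ := sqrt_fun2 _ hu (by simp [a0])
  have hr := hr'.at
  -- `β = b + D`
  set β : E → ℂ := fun x => b x + b x * r x with hβdef
  have hβ' : Sm β := hb'.add (hb'.mul hr')
  have hβ := hβ'.at
  have β0 : β 0 ≠ 0 := by
    simp only [hβdef, r0, mul_one]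
    intro h
    apply b0
    have : (2 : ℂ) * b 0 = 0 := by linear_combination h
    simpa using this
  set γ : E → ℂ := fun x => c x * (β x)⁻¹ with hγdef
  have hγ' : Sm γ := hc'.mul (hβ'.inv β0)
  have hγ := hγ'.at
  have γ0 : γ 0 = 0 := by simp [hγdef, c0]
  set y1 : E → ℂ := fun x => s1 x + γ x * s2 x with hy1def
  set y2 : E → ℂ := fun x => a x * s1 x + β x * s2 x with hy2def
  have hy1' : Sm y1 := hs1'.add (hγ'.mul hs2')
  have hy2' : Sm y2 := (ha'.mul hs1').add (hβ'.mul hs2')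
  have hy1 := hy1'.at
  have hy2 := hy2'.at
  set Φ : E → E := fun x => ((y1 x + y2 x) * (1 / 2), (y1 x - y2 x) * (1 / (2 * I)), x.2.2)
    with hΦdef
  have hΦ' : Sm Φ := by
    refine Sm.prodMk ((hy1'.add hy2').mul (Sm.const _))
      (Sm.prodMk ((hy1'.sub hy2').mul (Sm.const _)) ?_)
    exact Sm.of (contDiff_snd.comp contDiff_snd)
  have hΦ := hΦ'.at
  have Φ0 : Φ 0 = 0 := by
    simp [hΦdef, hy1def, hy2def, s10, s20]
  -- derivatives
  have ds1 := (hs1.differentiableAt hn).hasFDerivAt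
  have ds2 := (hs2.differentiableAt hn).hasFDerivAt
  have da := (ha.differentiableAt hn).hasFDerivAt
  have dβ := (hβ.differentiableAt hn).hasFDerivAt
  have dγ := (hγ.differentiableAt hn).hasFDerivAt
  have dy1 : HasFDerivAt y1 (fderiv ℝ s1 0) 0 := by
    have h := ds1.add (dγ.mul ds2)
    have he : fderiv ℝ s1 0 + (γ 0 • fderiv ℝ s2 0 + s2 0 • fderiv ℝ γ 0) = fderiv ℝ s1 0 := by
      refine ContinuousLinearMap.ext fun v => ?_
      simp [γ0, s20]
    rw [he] at h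
    exact h
  have dy2 : HasFDerivAt y2 (β 0 • fderiv ℝ s2 0) 0 := by
    have h := (da.mul ds1).add (dβ.mul ds2)
    have he : (a 0 • fderiv ℝ s1 0 + s1 0 • fderiv ℝ a 0) +
        (β 0 • fderiv ℝ s2 0 + s2 0 • fderiv ℝ β 0) = β 0 • fderiv ℝ s2 0 := by
      refine ContinuousLinearMap.ext fun v => ?_
      simp [a0, s10, s20]
    rw [he] at h
    exact h
  have dΦ := (hΦ.differentiableAt hn).hasFDerivAt
  have hinjΦ : ∀ v, fderiv ℝ Φ 0 v = 0 → v = 0 := by
    intro v hv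
    have d1 : HasFDerivAt (fun x => (Φ x).1)
        ((ContinuousLinearMap.fst ℝ ℂ (ℂ × Z)).comp (fderiv ℝ Φ 0)) 0 :=
      (ContinuousLinearMap.fst ℝ ℂ (ℂ × Z)).hasFDerivAt.comp 0 dΦ
    have d2 : HasFDerivAt (fun x => (Φ x).2.1)
        ((ContinuousLinearMap.fst ℝ ℂ Z).comp
          ((ContinuousLinearMap.snd ℝ ℂ (ℂ × Z)).comp (fderiv ℝ Φ 0))) 0 :=
      (ContinuousLinearMap.fst ℝ ℂ Z).hasFDerivAt.comp 0
        ((ContinuousLinearMap.snd ℝ ℂ (ℂ × Z)).hasFDerivAt.comp 0 dΦ)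
    have d3 := HasFDerivAt.comp (0 : E) (((ContinuousLinearMap.snd ℝ ℂ Z).comp
        (ContinuousLinearMap.snd ℝ ℂ (ℂ × Z))).hasFDerivAt (x := Φ 0)) dΦ
    have e1 : HasFDerivAt (fun x => (Φ x).1)
        ((1 / 2 : ℂ) • (fderiv ℝ s1 0 + β 0 • fderiv ℝ s2 0)) 0 :=
      (dy1.add dy2).mul_const (1 / 2 : ℂ)
    have e2 : HasFDerivAt (fun x => (Φ x).2.1)
        ((1 / (2 * I) : ℂ) • (fderiv ℝ s1 0 - β 0 • fderiv ℝ s2 0)) 0 :=
      (dy1.sub dy2).mul_const (1 / (2 * I) : ℂ)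
    have e3 : HasFDerivAt (((ContinuousLinearMap.snd ℝ ℂ Z).comp
        (ContinuousLinearMap.snd ℝ ℂ (ℂ × Z))) ∘ Φ)
        ((ContinuousLinearMap.snd ℝ ℂ Z).comp (ContinuousLinearMap.snd ℝ ℂ (ℂ × Z))) 0 :=
      ((ContinuousLinearMap.snd ℝ ℂ Z).comp
        (ContinuousLinearMap.snd ℝ ℂ (ℂ × Z))).hasFDerivAt
    have f1 := congrArg (fun l : E →L[ℝ] ℂ => l v) (d1.unique e1)
    have f2 := congrArg (fun l : E →L[ℝ] ℂ => l v) (d2.unique e2)
    have f3 := congrArg (fun l : E →L[ℝ] Z => l v) (d3.unique e3)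
    simp only [ContinuousLinearMap.comp_apply, hv, map_zero,
      ContinuousLinearMap.coe_snd', _root_.smul_apply,
      _root_.add_apply, _root_.sub_apply, smul_eq_mul] at f1 f2 f3
    have g1 : fderiv ℝ s1 0 v + β 0 * fderiv ℝ s2 0 v = 0 := by
      have := f1.symm
      rcases mul_eq_zero.1 this with h | h
      · norm_num at h
      · exact h
    have g2 : fderiv ℝ s1 0 v - β 0 * fderiv ℝ s2 0 v = 0 := by
      have := f2.symm
      rcases mul_eq_zero.1 this with h | h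
      · simp at h
      · exact h
    have k1 : fderiv ℝ s1 0 v = 0 := by linear_combination (g1 + g2) / 2
    have k2 : fderiv ℝ s2 0 v = 0 := by
      have : β 0 * fderiv ℝ s2 0 v = 0 := by linear_combination (g1 - g2) / 2
      exact (mul_eq_zero.1 this).resolve_left β0
    exact hinj v f3.symm k1 k2
  obtain ⟨Θ, L, Θ0, hΘ', hL, hev⟩ := inv_fun2 Φ hΦ' Φ0 hinjΦ
  have hΘ := hΘ'.at
  refine ⟨Θ, L, Θ0, hΘ', hL, ?_⟩
  have htend : Tendsto Θ (𝓝 0) (𝓝 0) := by
    have := hΘ.continuousAt.tendsto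
    rwa [Θ0] at this
  have hβne : ∀ᶠ x in 𝓝 (0 : E), β (Θ x) ≠ 0 :=
    htend.eventually (hβ.continuousAt.eventually_ne β0)
  have hbne : ∀ᶠ x in 𝓝 (0 : E), b (Θ x) ≠ 0 :=
    htend.eventually (hb.continuousAt.eventually_ne b0)
  have hr2' := htend.eventually hr2
  filter_upwards [hev, hβne, hbne, hr2'] with x hx h1 h2 h3
  have x1 : (y1 (Θ x) + y2 (Θ x)) * (1 / 2) = x.1 := congrArg Prod.fst hx
  have x2 : (y1 (Θ x) - y2 (Θ x)) * (1 / (2 * I)) = x.2.1 :=
    congrArg (fun p : E => p.2.1) hx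
  have x3 : (Θ x).2.2 = x.2.2 := by
    have : (Φ (Θ x)).2.2 = x.2.2 := by rw [hx]
    exact this
  refine ⟨x3, ?_⟩
  have hI : (1 / (2 * I)) ^ 2 = (-1 / 4 : ℂ) := by
    rw [div_pow, mul_pow, I_sq]
    norm_num
  have h4 : x.1 ^ 2 + x.2.1 ^ 2 = y1 (Θ x) * y2 (Θ x) := by
    rw [← x1, ← x2, mul_pow (y1 (Θ x) - y2 (Θ x)), hI]
    ring
  rw [h4]
  generalize Θ x = q at *
  have h5 : b q ^ 2 * r q ^ 2 = b q ^ 2 - a q * c q := by
    rw [h3]
    field_simp
  simp only [hy1def, hy2def, hγdef]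
  have h6 : a q * (c q * (β q)⁻¹) = b q - b q * r q := by
    rw [← mul_assoc, ← div_eq_mul_inv, div_eq_iff h1]
    simp only [hβdef]
    linear_combination h5
  have h7 : c q * (β q)⁻¹ * β q = c q := by
    rw [mul_assoc, inv_mul_cancel₀ h1, mul_one]
  have h8 : β q = b q + b q * r q := rfl
  linear_combination s1 q * s2 q * h6 + s2 q ^ 2 * h7 + s1 q * s2 q * h8

theorem stmtMORSE2 (hX : G_XI2) : G_MORSE2 := by
  intro T e hT h00 h011 h022 h012
  obtain ⟨ξ, hξ', ξ0, hξe⟩ := hX T e hT h00 h011 h022 h012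
  have hξ := hξ'.self_of_nhds
  have hn : (∞ : WithTop ℕ∞) ≠ 0 := by simp
  -- the vector `w_z`
  let P : Z → E := fun z => ((ξ z).1, (ξ z).2, z)
  have hP' : Sm P := by
    refine Sm.prodMk ?_ (Sm.prodMk ?_ (Sm.of contDiff_id))
    · exact Sm.comp' contDiff_fst hξ'
    · exact Sm.comp' contDiff_snd hξ'
  have hP := hP'.at
  have P0 : P 0 = 0 := by
    simp [P, ξ0]
  have hw00 : chartVec e 0 = e 0 := by
    simp [chartVec]
  have hw0 : chartVec e (P 0) = e 0 := by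
    rw [P0, hw00]
  have hPp : Sm (fun p : E => P p.2.2) :=
    Sm.comp (f := fun p : E => p.2.2) (g := P) hP'
      (Sm.of (contDiff_snd.comp contDiff_snd)) rfl
  have hTw : ∀ u v : V, Sm (fun p : E => T (chartVec e (P p.2.2)) u v) := by
    intro u v
    exact Sm.comp' ((contDiff_T1 T u v).comp (contDiff_chartVec e)) hPp
  have hs1 : Sm (fun p : E => p.1 - (P p.2.2).1) :=
    (Sm.of contDiff_fst).sub (Sm.comp' contDiff_fst hPp)
  have hs2 : Sm (fun p : E => p.2.1 - (P p.2.2).2.1) :=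
    (Sm.of (contDiff_fst.comp contDiff_snd)).sub
      (Sm.comp' (g := fun p : E => p.2.1) (contDiff_fst.comp contDiff_snd) hPp)
  have ha : Sm (fun p : E => 3 * T (chartVec e (P p.2.2)) (e 1) (e 1) +
      (T (e 1) (e 1) (e 1) * (p.1 - (P p.2.2).1) +
        3 * T (e 1) (e 1) (e 2) * (p.2.1 - (P p.2.2).2.1))) :=
    ((Sm.const _).mul (hTw _ _)).add (((Sm.const _).mul hs1).add
      ((Sm.const _).mul hs2))
  have hc : Sm (fun p : E => 3 * T (chartVec e (P p.2.2)) (e 2) (e 2) +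
      (3 * T (e 1) (e 2) (e 2) * (p.1 - (P p.2.2).1) +
        T (e 2) (e 2) (e 2) * (p.2.1 - (P p.2.2).2.1))) :=
    ((Sm.const _).mul (hTw _ _)).add (((Sm.const _).mul hs1).add
      ((Sm.const _).mul hs2))
  have hb : Sm (fun p : E => 3 * T (chartVec e (P p.2.2)) (e 1) (e 2)) :=
    (Sm.const _).mul (hTw _ _)
  have P0' : P (0 : E).2.2 = 0 := P0
  have hw0' : chartVec e (P (0 : E).2.2) = e 0 := hw0
  obtain ⟨Θ, L, Θ0, hΘ', hL, hev⟩ := normal_form2 _ _ _ _ _ hs1 hs2 ha hb hc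
    (by simp [P0]) (by simp [P0]) (by simp only [P0', hw00, h011]; simp)
    (by simp only [P0', hw00, h022]; simp) (by
      simp only [hw0']
      exact mul_ne_zero three_ne_zero h012) (by
      intro v hv h1 h2
      have dP := (hP.differentiableAt hn).hasFDerivAt
      have dPp : HasFDerivAt (fun p : E => P p.2.2) ((fderiv ℝ P 0).comp
          ((ContinuousLinearMap.snd ℝ ℂ Z).comp (ContinuousLinearMap.snd ℝ ℂ (ℂ × Z)))) 0 :=
        HasFDerivAt.comp (0 : E) (f := fun p : E => p.2.2) (g := P) dP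
          ((ContinuousLinearMap.snd ℝ ℂ Z).comp
            (ContinuousLinearMap.snd ℝ ℂ (ℂ × Z))).hasFDerivAt
      have k1 : HasFDerivAt (fun p : E => p.1 - (P p.2.2).1)
          (ContinuousLinearMap.fst ℝ ℂ (ℂ × Z) - (ContinuousLinearMap.fst ℝ ℂ (ℂ × Z)).comp
            ((fderiv ℝ P 0).comp
          ((ContinuousLinearMap.snd ℝ ℂ Z).comp (ContinuousLinearMap.snd ℝ ℂ (ℂ × Z))))) 0 :=
        (ContinuousLinearMap.fst ℝ ℂ (ℂ × Z)).hasFDerivAt.sub
          ((ContinuousLinearMap.fst ℝ ℂ (ℂ × Z)).hasFDerivAt.comp 0 dPp)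
      have k2 : HasFDerivAt (fun p : E => p.2.1 - (P p.2.2).2.1)
          (((ContinuousLinearMap.fst ℝ ℂ Z).comp (ContinuousLinearMap.snd ℝ ℂ (ℂ × Z))) -
            ((ContinuousLinearMap.fst ℝ ℂ Z).comp (ContinuousLinearMap.snd ℝ ℂ (ℂ × Z))).comp
            ((fderiv ℝ P 0).comp
          ((ContinuousLinearMap.snd ℝ ℂ Z).comp (ContinuousLinearMap.snd ℝ ℂ (ℂ × Z))))) 0 :=
        ((ContinuousLinearMap.fst ℝ ℂ Z).comp
          (ContinuousLinearMap.snd ℝ ℂ (ℂ × Z))).hasFDerivAt.sub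
          (((ContinuousLinearMap.fst ℝ ℂ Z).comp
            (ContinuousLinearMap.snd ℝ ℂ (ℂ × Z))).hasFDerivAt.comp 0 dPp)
      rw [k1.fderiv] at h1
      rw [k2.fderiv] at h2
      simp only [_root_.sub_apply, ContinuousLinearMap.comp_apply,
        ContinuousLinearMap.coe_snd', ContinuousLinearMap.coe_fst', hv, map_zero] at h1 h2
      have h1' : v.1 = 0 := by simpa using h1
      have h2' : v.2.1 = 0 := by simpa using h2
      exact Prod.ext h1' (Prod.ext h2' hv))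
  have hΘ := hΘ'.at
  -- continuity
  obtain ⟨U, hU, hPU⟩ := contDiffAt_zero.1 (hP.of_le zero_le)
  obtain ⟨h, hcont, hheq⟩ := cutoff (fun z => chart T e (P z)) U hU
    ((continuous_chart T e).comp_continuousOn hPU)
  refine ⟨h, Θ, L, ξ, hcont, Θ0, hΘ', hL, ?_, hξ.continuousAt, ξ0, ?_⟩
  · have htend : Tendsto (fun x : E => (Θ x).2.2) (𝓝 0) (𝓝 0) := by
      have h1 := hΘ.continuousAt.tendsto
      rw [Θ0] at h1
      have h2 : Tendsto (fun p : E => p.2.2) (𝓝 0) (𝓝 0) := by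
        have : Continuous (fun p : E => p.2.2) := continuous_snd.comp continuous_snd
        exact this.tendsto 0
      exact h2.comp h1
    filter_upwards [hev, htend.eventually hheq, htend.eventually hξe] with x hx h1 h2
    obtain ⟨h3, h4⟩ := hx
    rw [h4, ← h3, h1]
    have hexp := T_expand T hT (chartVec e (P (Θ x).2.2)) (e 1) (e 2)
      ((Θ x).1 - (P (Θ x).2.2).1) ((Θ x).2.1 - (P (Θ x).2.2).2.1) h2.1 h2.2
    have hvec : chartVec e (Θ x) = chartVec e (P (Θ x).2.2) +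
        ((Θ x).1 - (P (Θ x).2.2).1) • e 1 + ((Θ x).2.1 - (P (Θ x).2.2).2.1) • e 2 := by
      simp only [chartVec, P]
      module
    unfold chart
    rw [hvec, hexp]
    ring
  · filter_upwards [hheq, hξe] with z h1 h2
    exact ⟨h1, h2⟩

end Pool.Agent.Helper86.CF
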